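import Pool.Agent.Y638.RF.Lower
import Pool.Agent.N452.TF.Defs
import Pool.Agent.R599.NC.Code
import Pool.Agent.R562.QH.Fin

set_option autoImplicit false

/-! # Functions of several random bits: the lower bound, and the blocks of the clique problem -/

namespace Run7.h413.NR

open Finset Pool.Agent.TH697.Form Pool.Agent.TH697.Row Pool.Agent.Y638.RF
open Pool.Agent.R562.QH
open Pool.Agent.R599.NC (Vt grp inp Rel actOf idxOf outer query ungroup ungroup_query GD Promise
  yes no)
open Pool.Agent.N452.TF (Leaf)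

section outputs

variable {N Y J Z : Type} [Fintype J]

open Classical in
/-- From the patterns of all nodes to the outputs. -/
theorem outputs (dep : N → Prop) (𝒮 : Finset (N → Y → Bool)) (p : Z → Y → N → Bool)
    (h1 : ∀ z, (fun a u => decide (dep a ∧ p z u a = true)) ∈ 𝒮)
    (h2 : ∀ z, ∃ c : N → Bool, ∀ u a, ¬ dep a → p z u a = c a) (o : J → N) :
    ∃ S : Finset (Y → J → Bool), S.card ≤ 2 ^ Fintype.card J * 𝒮.card ∧
      ∀ z, (fun u j => p z u (o j)) ∈ S := by
  refine ⟨(𝒮 ×ˢ (univ : Finset (J → Bool))).image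
    (fun q => fun u j => if dep (o j) then q.1 (o j) u else q.2 j), ?_, fun z => ?_⟩
  · refine card_image_le.trans (le_of_eq ?_)
    rw [card_product, card_univ, Fintype.card_fun, Fintype.card_bool, mul_comm]
  · obtain ⟨c, hc⟩ := h2 z
    rw [mem_image]
    refine ⟨(fun a u => decide (dep a ∧ p z u a = true), fun j => c (o j)),
      mem_product.2 ⟨h1 z, mem_univ _⟩, ?_⟩
    funext u j
    simp only
    split_ifs with h
    · rw [Bool.eq_iff_iff, decide_eq_true_iff]
      exact ⟨fun h' => h'.2, fun h' => ⟨h, h'⟩⟩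
    · exact (hc u (o j) h).symm

end outputs

section lower

variable {ι : Type} {D : ι → Type} [DecidableEq ι] {T : Type} [Fintype T] {Ω : Type}
  [Fintype Ω] {J : Type} [Fintype J]

/-- The lower bound for arbitrary functions of several random bits. -/
theorem multi_lower (μ : Ω → ℝ) (hμ : IsProb μ) (s : ℕ) (G : Ω → (∀ i, D i) → J → Bool)
    (tr : Ω → ι → ℕ) (E K : ℕ) (hE : 1 ≤ E) (I : Finset ι)
    (hsub : ∀ ω, ∀ i ∈ I, ∀ (Y : Type) [Fintype Y], Fintype.card Y ≤ K → ∀ y : Y → D i,
      ∃ S : Finset (Y → J → Bool), S.card ≤ 2 ^ Fintype.card J * E ^ tr ω i ∧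
        ∀ z, (fun u => G ω (Function.update z i (y u))) ∈ S)
    (hs : ∀ ω, ∑ i ∈ I, tr ω i ≤ s) (dec : Ω → (J → Bool) → Bool)
    (P : (∀ i, D i) → Prop) (f : (∀ i, D i) → Bool)
    (hF : ApproximatesOn μ (fun ω x => dec ω (G ω x)) P f) (δ : ℝ)
    (h : ∀ i ∈ I, Asks T K δ P f i) :
    (I.card : ℝ) * ((49 / 600 - δ) * Fintype.card T - Fintype.card J) ≤
      Real.logb 2 E * s := by
  classical
  have h6 : (0 : ℝ) < Real.log 2 := Real.log_pos (by norm_num)
  have hE' : (1 : ℝ) ≤ E := by exact_mod_cast hE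
  have hlE : 0 ≤ Real.log (E : ℝ) := Real.log_nonneg hE'
  have hEpos : (0 : ℝ) < E := by linarith
  have h1 : ∀ i ∈ I, (49 / 600 - δ) * Fintype.card T * Real.log 2
      ≤ ∑ ω, μ ω * (Fintype.card J * Real.log 2 + Real.log E * (tr ω i : ℝ)) := by
    intro i hi
    obtain ⟨A, r, Q, R, hA, hQA, hQ, hP, hf⟩ := h i hi
    obtain ⟨y, hy⟩ : ∃ y : {d // d ∈ A} → D i, y = fun v => v.1 := ⟨_, rfl⟩
    choose S hS1 hS2 using fun ω => hsub ω i hi {d // d ∈ A} (by rw [Fintype.card_coe]; exact hA) y
    have hS3 : ∀ ω z, (fun u => dec ω (G ω (Function.update z i (y u)))) ∈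
        (S ω).image (fun a => fun u => dec ω (a u)) := by
      intro ω z
      rw [mem_image]
      exact ⟨_, hS2 ω z, rfl⟩
    refine (gen_err μ hμ (fun ω x => dec ω (G ω x)) P f hF i y
      (fun ω => (S ω).image (fun a => fun u => dec ω (a u))) (fun ω z => hS3 ω z) r
      (fun v z => ⟨Q v z, hQA v z⟩) (fun v z z' hz => Subtype.ext (hQ v z z' hz)) R
      (fun v z => by rw [hy]; exact hP v z) δ (by rw [hy]; exact hf)).trans ?_
    apply sum_le_sum
    intro ω _
    apply mul_le_mul_of_nonneg_left _ (hμ.nonneg ω)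
    have hne : 1 ≤ ((S ω).image (fun a => fun u => dec ω (a u))).card :=
      card_pos.2 ⟨_, hS3 ω (R (fun _ => false))⟩
    have h2 : (((S ω).image (fun a => fun u => dec ω (a u))).card : ℝ) ≤
        2 ^ Fintype.card J * (E : ℝ) ^ tr ω i := by
      have h3 : ((S ω).image (fun a => fun u => dec ω (a u))).card ≤
          2 ^ Fintype.card J * E ^ tr ω i := card_image_le.trans (hS1 ω)
      exact_mod_cast h3
    have h4 := Real.log_le_log (by exact_mod_cast hne) h2
    rw [Real.log_mul (by positivity) (by positivity), Real.log_pow, Real.log_pow] at h4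
    linarith
  have h2 := sum_le_sum h1
  rw [sum_const, nsmul_eq_mul, sum_comm] at h2
  have h3 : ∑ ω, ∑ i ∈ I, μ ω * (Fintype.card J * Real.log 2 + Real.log E * (tr ω i : ℝ)) ≤
      I.card * (Fintype.card J * Real.log 2) + Real.log E * s := by
    have e1 : (I.card : ℝ) * (Fintype.card J * Real.log 2) + Real.log E * s =
        ∑ ω, μ ω * (I.card * (Fintype.card J * Real.log 2) + Real.log E * s) := by
      rw [← sum_mul, hμ.sum_one, one_mul]
    rw [e1]
    apply sum_le_sum
    intro ω _
    rw [← mul_sum]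
    apply mul_le_mul_of_nonneg_left _ (hμ.nonneg ω)
    rw [sum_add_distrib, sum_const, nsmul_eq_mul, ← mul_sum]
    have h5 : ∑ i ∈ I, (tr ω i : ℝ) ≤ s := by exact_mod_cast hs ω
    have h7 := mul_le_mul_of_nonneg_left h5 hlE
    linarith
  have h4 := h2.trans h3
  have h7 : Real.logb 2 E * s * Real.log 2 = Real.log E * s := by
    rw [Real.logb]
    field_simp
  have h5 : (I.card : ℝ) * ((49 / 600 - δ) * Fintype.card T - Fintype.card J) * Real.log 2 ≤
      Real.logb 2 E * s * Real.log 2 := by
    rw [h7]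
    linarith
  exact le_of_mul_le_mul_right h5 h6

end lower

section blocks

open Classical in
/-- The blocks of the clique problem ask for the bits of a string. -/
theorem block_asks {n g r t m u e k s : ℕ} {A : Type} [Fintype A] [Nonempty A]
    (φ : Vt g r t m u A ↪ Fin n) (c : A → Fin r → Fin t)
    (he : ∀ a a' : A, a ≠ a' → (univ.filter (fun l => c a l = c a' l)).card ≤ e)
    (hk : k = 2 * r + 2 * m + u) (hs : max (2 * r + m) (2 * m + r + e) + u < s) (hs1 : 2 ≤ s)
    (hsk : s ≤ k) (b : Fin g × Fin g) :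
    Asks (A × A) (Fintype.card A ^ 2) 0 (fun x => Promise n k s (ungroup (grp φ) x))
      (fun x => decide (¬ (graph (ungroup (grp φ) x)).CliqueFree k)) (some b) := by
  obtain ⟨a0⟩ := ‹Nonempty A›
  refine asks_of ((univ : Finset (A × A)).image (query φ c b)) (fun _ => 0)
    (fun t _ => query φ c b t)
    (fun z => outer φ c b (idxOf (a0, a0)) (fun a a' => z (a, a'))) ?_
    (fun t z => mem_image_of_mem _ (mem_univ t)) (fun t z z' _ => rfl) ?_ ?_
  · refine card_image_le.trans (le_of_eq ?_)
    rw [card_univ, Fintype.card_prod, pow_two]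
  · intro t z
    rw [ungroup_query]
    cases hz : z t with
    | true => exact Or.inl (hk ▸ yes φ (by simpa [idxOf] using hz))
    | false => exact Or.inr (no φ he (by simpa [idxOf] using hz) hs hs1)
  · have h0 : ∀ z : A × A → Bool, univ.filter (fun t : A × A =>
        (decide (¬ (graph (ungroup (grp φ) (Function.update
          (outer φ c b (idxOf (a0, a0)) (fun a a' => z (a, a')))
          (some b) (query φ c b t)))).CliqueFree k)) ≠ z t) = ∅ := by
      intro z
      rw [filter_eq_empty_iff]
      intro t _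
      rw [not_not]
      rw [ungroup_query]
      cases hz : z t with
      | true => exact decide_eq_true (hk ▸ yes φ (by simpa [idxOf] using hz))
      | false =>
        refine decide_eq_false (not_not.2 ?_)
        exact (no φ he (by simpa [idxOf] using hz) hs hs1).mono hsk
    simp only [h0, card_empty, Nat.cast_zero, sum_const_zero, zero_mul, le_refl]

end blocks

section leaves

variable {ι κ : Type} {D : ι → Type} {w q : ℕ} {E : Type}

/-- grouping for leaves -/
def gleaf (grp : ι → κ) : Leaf ι D w q E → Leaf κ (GD D grp) w q E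
  | .item i f => .item (grp i) (fun y => f (y ⟨i, rfl⟩))
  | .word τ => .word ⟨fun k => grp (τ.item k), fun k y => τ.view k (y ⟨τ.item k, rfl⟩), τ.out⟩

theorem gleaf_val (grp : ι → κ) (L : Leaf ι D w q E) (x : ∀ b, GD D grp b) :
    (gleaf grp L).val x = L.val (ungroup grp x) := by
  cases L with
  | item i f => rfl
  | word τ => rfl

theorem gleaf_sees (grp : ι → κ) (L : Leaf ι D w q E) {b : κ} (h : (gleaf grp L).Sees {b}) :
    ∃ e, grp e = b ∧ L.Sees {e} := by
  cases L with
  | item i f => exact ⟨i, h, rfl⟩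
  | word τ =>
    obtain ⟨k, hk⟩ := h
    exact ⟨τ.item k, hk, k, rfl⟩

end leaves

end Run7.h413.NR
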