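import Pool.Agent.R599.NC.Asym
import Pool.Agent.Run7.h413.NR.Multi

set_option autoImplicit false

/-! # The asymptotic lower bound -/

namespace Run7.h413.NR

open Finset Filter Pool.Agent.R562.QH Pool.Agent.TH697.Form Pool.Agent.TH697.Row
open Pool.Agent.R599.NC (Vt exists_params exists_code log_small)

open Classical in
/-- The blocks of the clique problem force the number `B`, up to `j` bits for each block. -/
def Blocks (n k s : ℕ) (j B : ℝ) : Prop :=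
  ∀ (g r t m u e : ℕ) (A : Type) [Fintype A] [Nonempty A] (φ : Vt g r t m u A ↪ Fin n)
    (c : A → Fin r → Fin t),
    (∀ a a' : A, a ≠ a' → (univ.filter (fun l => c a l = c a' l)).card ≤ e) →
    k = 2 * r + 2 * m + u → max (2 * r + m) (2 * m + r + e) + u < s → 2 ≤ s → s ≤ k →
    Fintype.card A ≤ n →
    (g : ℝ) ^ 2 * ((49 / 600 : ℝ) * (Fintype.card A : ℝ) ^ 2 - j) ≤ B

open Classical in
theorem asym (ε δ : ℝ) (hε : 0 < ε) (hδ : 0 < δ) : ∃ k₀ : ℕ, ∀ k, k₀ ≤ k →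
    ∀ s : ℕ, (3 / 4 + δ) * k ≤ s → s ≤ k → ∀ d F G c : ℕ, ∀ᶠ n : ℕ in atTop,
      ∀ (Q v : ℕ) (X : ℝ), 0 ≤ X → v ≤ G * (Nat.log 2 (F * n ^ c) + 1) →
        Blocks n k s (Q * (2 * v + 1 : ℝ) ^ d) ((n : ℝ) ^ (ε / 16) * X) →
        (n : ℝ) ^ (4 - ε) ≤ X + (n : ℝ) ^ 2 * Q := by
  obtain ⟨e, he⟩ : ∃ e, e = ⌈4 / ε⌉₊ + 1 := ⟨_, rfl⟩
  have he1 : 1 ≤ e := by omega
  have heε : 4 / ε ≤ e := by
    have := Nat.le_ceil (4 / ε)
    rw [he]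
    push_cast
    linarith
  have he0 : (0 : ℝ) < e := by exact_mod_cast he1
  have heε' : 2 / (e : ℝ) ≤ ε / 2 := by
    rw [div_le_iff₀ hε] at heε
    rw [div_le_div_iff₀ he0 (by norm_num)]
    linarith
  refine ⟨⌈((e : ℝ) + 4) / δ⌉₊ + 4, fun k hk s hs hsk => ?_⟩
  have hk4 : 4 ≤ k := by omega
  have hkδ : (e : ℝ) + 4 ≤ δ * k := by
    have h1 := Nat.le_ceil (((e : ℝ) + 4) / δ)
    have h2 : ((⌈((e : ℝ) + 4) / δ⌉₊ + 4 : ℕ) : ℝ) ≤ k := by exact_mod_cast hk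
    push_cast at h2
    have h3 : ((e : ℝ) + 4) / δ ≤ k := by linarith
    rw [div_le_iff₀ hδ] at h3
    linarith
  obtain ⟨r, hr⟩ : ∃ r, r = k / 4 := ⟨_, rfl⟩
  have hr1 : 1 ≤ r := by omega
  have hkr : 4 * r ≤ k := by omega
  have hku : k - 4 * r ≤ 3 := by omega
  have hs' : 3 * r + (e - 1) + (k - 4 * r) < s := by
    have h1 : (3 * (k : ℝ)) / 4 + (e + 4) ≤ s := by linarith
    have h2 : ((3 * k + 4 * (e + 4) : ℕ) : ℝ) ≤ ((4 * s : ℕ) : ℝ) := by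
      push_cast
      linarith
    have h3 : 3 * k + 4 * (e + 4) ≤ 4 * s := by exact_mod_cast h2
    omega
  intro d F G c
  obtain ⟨C, hC, hpar⟩ := exists_params e k he1 hk4
  have hbig : ∀ᶠ n : ℕ in atTop, 1 ≤ (49 / 600 : ℝ) * C ^ 2 * (n : ℝ) ^ (ε / 4) / 1 := by
    have h1 : Tendsto (fun n : ℕ => (n : ℝ) ^ (ε / 4)) atTop atTop :=
      (tendsto_rpow_atTop (by positivity)).comp tendsto_natCast_atTop_atTop
    filter_upwards [h1.eventually_ge_atTop (1 / ((49 / 600 : ℝ) * C ^ 2))] with n hn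
    rw [div_le_iff₀ (by positivity)] at hn
    linarith
  filter_upwards [hpar, hbig, few_clauses (ε / 16) (by positivity) d F G c 1,
    eventually_ge_atTop 3] with n hn hnbig hfew hn3
  intro Q v X hX hv hbl
  by_contra hcon
  push Not at hcon
  obtain ⟨g, p, hp, hkp, hcard, hgn, hC2⟩ := hn
  have hn1 : (3 : ℝ) ≤ n := by exact_mod_cast hn3
  have hn0 : (0 : ℝ) < n := by linarith
  have hQ0 : (0 : ℝ) ≤ Q := Nat.cast_nonneg Q
  haveI : Fact p.Prime := ⟨hp⟩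
  obtain ⟨cd, hcd⟩ := exists_code p e r he1 (by omega)
  -- the embedding
  obtain ⟨φ⟩ : Nonempty (Vt g r p r (k - 4 * r) (Fin e → ZMod p) ↪ Fin n) := by
    apply Function.Embedding.nonempty_of_card_le
    rw [Fintype.card_sum, Fintype.card_sum, Fintype.card_prod, Fintype.card_prod,
      Fintype.card_prod, Fintype.card_prod, Fintype.card_prod, Fintype.card_bool,
      Fintype.card_fun, ZMod.card]
    simp only [Fintype.card_fin]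
    rw [hr]
    exact hcard
  have hAn : Fintype.card (Fin e → ZMod p) ≤ n := by
    have h1 : Function.Injective (fun a : Fin e → ZMod p =>
        φ (Sum.inr (Sum.inl (false, a, (⟨0, by omega⟩ : Fin r))))) := by
      intro a a' haa
      have := φ.injective haa
      simpa using this
    have h2 := Fintype.card_le_of_injective _ h1
    rwa [Fintype.card_fin] at h2
  have hbd := hbl g r p r (k - 4 * r) (e - 1) (Fin e → ZMod p) φ cd hcd (by omega)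
    (by
      have h1 : max (2 * r + r) (2 * r + r + (e - 1)) = 3 * r + (e - 1) := by
        rw [max_eq_right (by omega)]
        ring
      rw [h1]
      exact hs') (by omega) hsk hAn
  have hcA : (Fintype.card (Fin e → ZMod p) : ℝ) = (p : ℝ) ^ e := by
    rw [Fintype.card_fun, ZMod.card, Fintype.card_fin]
    push_cast
    ring
  rw [hcA] at hbd
  have hη : (0 : ℝ) < (n : ℝ) ^ (ε / 16) := by positivity
  have hη3 : (n : ℝ) ^ (ε / 16) ≤ (n : ℝ) ^ (ε / 4) :=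
    Real.rpow_le_rpow_of_exponent_le (by linarith) (by linarith)
  have hfew' : (2 * v + 1 : ℝ) ^ d ≤ (n : ℝ) ^ (ε / 16) := by
    have := hfew v hv
    linarith
  -- first term
  have hT1 : (n : ℝ) ^ (ε / 16) * X ≤ (n : ℝ) ^ (ε / 4) * X :=
    mul_le_mul_of_nonneg_right hη3 hX
  -- second term
  have hT2 : (g : ℝ) ^ 2 * (Q * (2 * v + 1) ^ d) ≤ (n : ℝ) ^ (ε / 4) * ((n : ℝ) ^ 2 * Q) := by
    have hg : (g : ℝ) ≤ n := by exact_mod_cast hgn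
    calc (g : ℝ) ^ 2 * (Q * (2 * v + 1) ^ d)
        ≤ (n : ℝ) ^ 2 * (Q * (n : ℝ) ^ (ε / 16)) := by gcongr
      _ = (n : ℝ) ^ (ε / 16) * ((n : ℝ) ^ 2 * Q) := by ring
      _ ≤ (n : ℝ) ^ (ε / 4) * ((n : ℝ) ^ 2 * Q) :=
        mul_le_mul_of_nonneg_right hη3 (by positivity)
  have hmain : (49 / 600 : ℝ) * (g * (p : ℝ) ^ e) ^ 2 < (n : ℝ) ^ (ε / 4) * (n : ℝ) ^ (4 - ε) := by
    have h1 : (g : ℝ) ^ 2 * ((49 / 600 : ℝ) * ((p : ℝ) ^ e) ^ 2 - Q * (2 * v + 1) ^ d) =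
        (49 / 600 : ℝ) * (g * (p : ℝ) ^ e) ^ 2 - (g : ℝ) ^ 2 * (Q * (2 * v + 1) ^ d) := by ring
    rw [h1] at hbd
    have h2 : (49 / 600 : ℝ) * (g * (p : ℝ) ^ e) ^ 2 ≤
        (n : ℝ) ^ (ε / 4) * (X + (n : ℝ) ^ 2 * Q) := by
      rw [mul_add]
      linarith
    exact h2.trans_lt (mul_lt_mul_of_pos_left hcon (by positivity))
  have hlow : (49 / 600 : ℝ) * C ^ 2 * (n : ℝ) ^ (4 - ε / 2) ≤
      (49 / 600 : ℝ) * (g * (p : ℝ) ^ e) ^ 2 := by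
    have h1 : (C * (n : ℝ) ^ (2 - 1 / (e : ℝ))) ^ 2 ≤ (g * (p : ℝ) ^ e) ^ 2 :=
      pow_le_pow_left₀ (by positivity) hC2 2
    have h2 : (n : ℝ) ^ (4 - ε / 2) ≤ ((n : ℝ) ^ (2 - 1 / (e : ℝ))) ^ 2 := by
      rw [← Real.rpow_natCast, ← Real.rpow_mul hn0.le]
      apply Real.rpow_le_rpow_of_exponent_le (by linarith)
      push_cast
      have e1 : (2 - 1 / (e : ℝ)) * 2 = 4 - 2 / e := by ring
      rw [e1]
      linarith
    calc (49 / 600 : ℝ) * C ^ 2 * (n : ℝ) ^ (4 - ε / 2)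
        ≤ (49 / 600 : ℝ) * C ^ 2 * ((n : ℝ) ^ (2 - 1 / (e : ℝ))) ^ 2 := by gcongr
      _ = (49 / 600 : ℝ) * (C * (n : ℝ) ^ (2 - 1 / (e : ℝ))) ^ 2 := by ring
      _ ≤ _ := by gcongr
  have hfin := hlow.trans_lt hmain
  have e1 : (n : ℝ) ^ (4 - ε / 2) = (n : ℝ) ^ (ε / 4) * ((n : ℝ) ^ (ε / 4) * (n : ℝ) ^ (4 - ε)) := by
    rw [← Real.rpow_add hn0, ← Real.rpow_add hn0]
    congr 1
    ring
  rw [e1] at hfin
  have h3 : (n : ℝ) ^ (ε / 4) * (n : ℝ) ^ (4 - ε) ≤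
      (49 / 600 : ℝ) * C ^ 2 * ((n : ℝ) ^ (ε / 4) * ((n : ℝ) ^ (ε / 4) * (n : ℝ) ^ (4 - ε))) := by
    have h4 : 0 ≤ (n : ℝ) ^ (ε / 4) * (n : ℝ) ^ (4 - ε) := by positivity
    calc (n : ℝ) ^ (ε / 4) * (n : ℝ) ^ (4 - ε) = 1 * ((n : ℝ) ^ (ε / 4) * (n : ℝ) ^ (4 - ε)) := by
          ring
      _ ≤ ((49 / 600 : ℝ) * C ^ 2 * (n : ℝ) ^ (ε / 4) / 1) *
          ((n : ℝ) ^ (ε / 4) * (n : ℝ) ^ (4 - ε)) := mul_le_mul_of_nonneg_right hnbig h4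
      _ = _ := by ring
  linarith

/-- No reductions, from a lower bound for all large parameters. -/
theorem none_of {R : ℕ → ℕ → ℕ → ℝ → Prop} (ε δ : ℝ) (hε : 0 < ε) (hδ4 : δ ≤ 1 / 4)
    (h : ∃ k₀ : ℕ, ∀ k, k₀ ≤ k → ∀ s : ℕ, (3 / 4 + δ) * k ≤ s → s ≤ k →
      ∀ᶠ n : ℕ in atTop, ∀ Y : ℝ, R n k s Y → (n : ℝ) ^ (4 - ε / 2) ≤ Y) (f : ℕ → ℕ) :
    ¬ ∀ k s : ℕ, (3 / 4 + δ) * k ≤ s → s ≤ k → ∀ᶠ n : ℕ in atTop,
      ∃ Y : ℝ, R n k s Y ∧ Y ≤ f k * (n : ℝ) ^ (4 - ε) := by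
  intro hcon
  obtain ⟨k₀, hk₀⟩ := h
  have hs : (3 / 4 + δ) * (k₀ : ℝ) ≤ k₀ := by
    have : (0 : ℝ) ≤ k₀ := Nat.cast_nonneg _
    nlinarith
  have h2 := hk₀ k₀ le_rfl k₀ hs le_rfl
  have h3 := hcon k₀ k₀ hs le_rfl
  have h4 : ∀ᶠ n : ℕ in atTop, (f k₀ : ℝ) + 1 ≤ (n : ℝ) ^ (ε / 2) :=
    ((tendsto_rpow_atTop (by positivity : 0 < ε / 2)).comp
      tendsto_natCast_atTop_atTop).eventually_ge_atTop _
  obtain ⟨n, hn2, ⟨Y, hR, hY⟩, hn4, hn1⟩ :=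
    (h2.and (h3.and (h4.and (eventually_ge_atTop 1)))).exists
  have h5 := hn2 Y hR
  have hn0 : (0 : ℝ) < n := by
    have : 0 < n := hn1
    exact_mod_cast this
  have h6 : (n : ℝ) ^ (4 - ε / 2) = (n : ℝ) ^ (ε / 2) * (n : ℝ) ^ (4 - ε) := by
    rw [← Real.rpow_add hn0]
    congr 1
    ring
  have h7 : (0 : ℝ) < (n : ℝ) ^ (4 - ε) := by positivity
  have h8 : ((f k₀ : ℝ) + 1) * (n : ℝ) ^ (4 - ε) ≤ (n : ℝ) ^ (ε / 2) * (n : ℝ) ^ (4 - ε) :=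
    mul_le_mul_of_nonneg_right hn4 h7.le
  linarith

end Run7.h413.NR
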