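import Pool.Agent.Run7.h413.NR.FSub
import Pool.Agent.Run7.h413.NR.Asym

set_option autoImplicit false

/-! # Reductions from CLIQUE whose output bits are computed by networks over a field -/

namespace Run7.h413.NR.Field

open Finset Filter Pool.Agent.R562.QH Pool.Agent.TH697.Form Pool.Agent.TH697.Row
open Pool.Agent.R599.NC (Vt grp ungroup GD Promise log_small)
open Run7.h413.FN (Net)

theorem logb_E {w h γ M : ℕ} (hw : 1 ≤ w) (hM : 1 ≤ M) (hγ : 1 ≤ γ) :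
    Real.logb 2 ((2 ^ (w - 1) * (M * γ) ^ (2 * (h + 1)) : ℕ) : ℝ) =
      2 * (h + 1) * (Real.logb 2 M + Real.logb 2 γ) + (w - 1) := by
  have hM' : (0 : ℝ) < M := by exact_mod_cast hM
  have hγ' : (0 : ℝ) < γ := by exact_mod_cast hγ
  have hw' : ((w - 1 : ℕ) : ℝ) = (w : ℝ) - 1 := by
    rw [Nat.cast_sub hw, Nat.cast_one]
  push_cast
  rw [Real.logb_mul (by positivity) (by positivity), Real.logb_pow, Real.logb_pow,
    Real.logb_mul (by positivity) (by positivity),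
    Real.logb_self_eq_one (by norm_num), hw']
  push_cast
  ring

open Classical in
/-- The bound for the blocks. -/
theorem blocks_net {K : Type} [Field K] {n k s w h γ S M : ℕ} {J : Type} [Fintype J] {Ω : Type}
    [Fintype Ω] (μ : Ω → ℝ) (hμ : IsProb μ) (C : Ω → Net K (Pairs n) (fun _ => Bool) w 2)
    (o : ∀ ω, J → (C ω).Node) (dec : Ω → (J → Bool) → Bool)
    (hw : 1 ≤ w) (hγ : 1 ≤ γ) (hT : ∀ ω, (C ω).TestDepthLE h) (hG : ∀ ω, (C ω).DegreeLE γ)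
    (hS : ∀ ω, (C ω).cost univ ≤ S) (hM : n ^ 2 * S + 1 ≤ M)
    (hB : ApproximatesOn μ (fun ω x => dec ω (fun j => decide ((C ω).val x (o ω j) ≠ 0)))
      (Promise n k s) (fun x => decide (¬ (graph x).CliqueFree k))) :
    Blocks n k s (Fintype.card J)
      ((2 * (h + 1) * (Real.logb 2 M + Real.logb 2 γ) + (w - 1)) * S) := by
  intro g r t m u e A _ _ φ c he hk hs hs2 hsk hAn
  have hM1 : 1 ≤ M := by omega
  obtain ⟨E, hE⟩ : ∃ E, E = 2 ^ (w - 1) * (M * γ) ^ (2 * (h + 1)) := ⟨_, rfl⟩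
  have hE1 : 1 ≤ E := by
    rw [hE]
    exact Nat.mul_pos (by positivity) (Nat.pow_pos (Nat.mul_pos (by omega) hγ))
  have hcost : ∀ ω (I : Finset (Option (Fin g × Fin g))),
      ∑ b ∈ I, ((C ω).gnet (grp φ)).traffic b ≤ S := fun ω I =>
    ((C ω).gnet_cost (grp φ) I).trans (hS ω)
  have h := multi_lower (T := A × A) (J := J) μ hμ S
    (fun ω x j => decide (((C ω).gnet (grp φ)).val x (o ω j) ≠ 0))
    (fun ω b => ((C ω).gnet (grp φ)).traffic b) E (Fintype.card A ^ 2) hE1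
    ((univ : Finset (Fin g × Fin g)).image some)
    (by
      intro ω b _ Y _ hY y
      refine ((C ω).gnet (grp φ)).multi b (J := J) (o ω) y h γ S M E (by norm_num) hγ
        ((C ω).gnet_tests (grp φ) (hT ω)) ((C ω).gnet_degree (grp φ) (hG ω)) ?_ ?_ hE
      · have h1 := hcost ω {b}
        rwa [sum_singleton] at h1
      · have h1 : Fintype.card Y ≤ n ^ 2 := hY.trans (Nat.pow_le_pow_left hAn 2)
        have h2 : Fintype.card Y * S ≤ n ^ 2 * S := Nat.mul_le_mul_right _ h1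
        omega)
    (fun ω => hcost ω _) dec
    (fun x => Promise n k s (ungroup (grp φ) x))
    (fun x => decide (¬ (graph (ungroup (grp φ) x)).CliqueFree k))
    (fun x hx => by
      have e1 : ∀ ω, (fun j => decide (((C ω).gnet (grp φ)).val x (o ω j) ≠ 0)) =
          fun j => decide ((C ω).val (ungroup (grp φ) x) (o ω j) ≠ 0) := by
        intro ω
        funext j
        rw [(C ω).gnet_val (grp φ) x ((C ω).lev (o ω j) + 1) (o ω j) (Nat.lt_succ_self _)]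
      simp only [e1]
      exact hB (ungroup (grp φ) x) hx) 0
    (by
      intro i hi
      rw [mem_image] at hi
      obtain ⟨b, -, rfl⟩ := hi
      exact block_asks φ c he hk hs hs2 hsk b)
  rw [card_image_of_injective _ (Option.some_injective _), card_univ, Fintype.card_prod,
    Fintype.card_prod, Fintype.card_fin, hE, logb_E hw hM1 hγ] at h
  push_cast at h
  have e1 : (g : ℝ) ^ 2 * ((49 / 600 : ℝ) * (Fintype.card A : ℝ) ^ 2 - Fintype.card J) =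
      (g : ℝ) * g * ((49 / 600 - 0) * ((Fintype.card A : ℝ) * Fintype.card A) -
        Fintype.card J) := by ring
  rw [e1]
  exact h

open Classical in
theorem main (ε δ : ℝ) (hε : 0 < ε) (hδ : 0 < δ) : ∃ k₀ : ℕ, ∀ k, k₀ ≤ k →
    ∀ s : ℕ, (3 / 4 + δ) * k ≤ s → s ≤ k → ∀ d F G c : ℕ, ∀ᶠ n : ℕ in atTop,
      ∀ (K : Type) [Field K] (Q v w h γ S : ℕ), 1 ≤ w → 1 ≤ γ →
      v ≤ G * (Nat.log 2 (F * n ^ c) + 1) →
      ∀ (Ω : Type) [Fintype Ω] (μ : Ω → ℝ), IsProb μ →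
      ∀ (C : Ω → Net K (Pairs n) (fun _ => Bool) w 2)
        (o : ∀ ω, Fin Q × Clause v d → (C ω).Node) (ev : Ω → (Fin Q → Bool) → Bool),
        (∀ ω, (C ω).TestDepthLE h) → (∀ ω, (C ω).DegreeLE γ) → (∀ ω, (C ω).cost univ ≤ S) →
        ApproximatesOn μ (fun ω x => ev ω fun i => decide (Sat fun cl =>
            decide ((C ω).val x (o ω (i, cl)) ≠ 0)))
          (Promise n k s) (fun x => decide (¬ (graph x).CliqueFree k)) →
        (n : ℝ) ^ (4 - ε) ≤ (w + (h + 1) * (1 + Real.logb 2 γ)) * S + (n : ℝ) ^ 2 * Q := by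
  obtain ⟨k₀, hk₀⟩ := asym ε δ hε hδ
  refine ⟨k₀, fun k hk s hs hsk d F G c => ?_⟩
  filter_upwards [hk₀ k hk s hs hsk d F G c, log_small (ε / 16) 14 (by positivity),
    eventually_ge_atTop 32] with n hn hlog hn3
  intro K _ Q v w h γ S hw hγ hv Ω _ μ hμ C o ev hT hG hS hR
  have hn1 : (32 : ℝ) ≤ n := by exact_mod_cast hn3
  have hn0 : (0 : ℝ) < n := by linarith
  have hw1 : (1 : ℝ) ≤ w := by exact_mod_cast hw
  have hh0 : (0 : ℝ) ≤ h := Nat.cast_nonneg h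
  have hγ0 : 0 ≤ Real.logb 2 (γ : ℝ) := Real.logb_nonneg (by norm_num) (by exact_mod_cast hγ)
  have hS0 : (0 : ℝ) ≤ S := Nat.cast_nonneg S
  have hQ0 : (0 : ℝ) ≤ (n : ℝ) ^ 2 * Q := by positivity
  obtain ⟨ρ, hρ⟩ : ∃ ρ, ρ = Real.logb 2 (γ : ℝ) := ⟨_, rfl⟩
  rw [← hρ] at hγ0 ⊢
  by_cases hSn : n ^ 4 < S
  · have h1 : (n : ℝ) ^ 4 ≤ S := by exact_mod_cast hSn.le
    have hn4 : (n : ℝ) ^ (4 - ε) ≤ (n : ℝ) ^ 4 := by
      rw [← Real.rpow_natCast]
      exact Real.rpow_le_rpow_of_exponent_le (by linarith) (by push_cast; linarith)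
    have h2 : 1 ≤ w + (h + 1) * (1 + ρ) := by nlinarith [mul_nonneg hh0 hγ0]
    have h3 : (S : ℝ) ≤ (w + (h + 1) * (1 + ρ)) * S := le_mul_of_one_le_left hS0 h2
    linarith
  push Not at hSn
  have hM : n ^ 2 * S + 1 ≤ n ^ 7 := by
    have h2 : n ^ 2 * S ≤ n ^ 2 * n ^ 4 := Nat.mul_le_mul_left _ hSn
    have h3 : n ^ 2 * n ^ 4 = n ^ 6 := by ring
    have h5 : 32 * n ^ 6 ≤ n ^ 7 := by
      calc 32 * n ^ 6 ≤ n * n ^ 6 := Nat.mul_le_mul_right _ hn3
        _ = n ^ 7 := by ring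
    have h6 : 1 ≤ n ^ 6 := Nat.one_le_pow _ _ (by omega)
    omega
  have hbl := blocks_net (J := Fin Q × Clause v d) μ hμ C o
    (fun ω a => ev ω fun i => decide (Sat fun cl => a (i, cl))) hw hγ hT hG hS hM hR
  obtain ⟨ℓ, hℓ⟩ : ∃ ℓ, ℓ = Real.logb 2 n := ⟨_, rfl⟩
  have hℓ1 : 1 ≤ ℓ := by
    rw [hℓ, Real.le_logb_iff_rpow_le (by norm_num) hn0]
    linarith [Real.rpow_one (2 : ℝ)]
  have hpow : Real.logb 2 ((n ^ 7 : ℕ) : ℝ) = 7 * ℓ := by
    push_cast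
    rw [hℓ, Real.logb_pow]
    norm_num
  rw [hpow, ← hρ] at hbl
  have hX : (0 : ℝ) ≤ (w + (h + 1) * (1 + ρ)) * S := by positivity
  refine hn Q v ((w + (h + 1) * (1 + ρ)) * S) hX hv ?_
  have hJ : (Fintype.card (Fin Q × Clause v d) : ℝ) = Q * (2 * v + 1) ^ d := by
    rw [Fintype.card_prod, card_clause, Fintype.card_fin]
    push_cast
    ring
  rw [hJ] at hbl
  intro g r t m u e A _ _ φ cd he hk hs3 hs2 hsk' hAn
  refine (hbl g r t m u e A φ cd he hk hs3 hs2 hsk' hAn).trans ?_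
  have hfac : 2 * ((h : ℝ) + 1) * (7 * ℓ + ρ) + (w - 1) ≤
      14 * ℓ * (w + (h + 1) * (1 + ρ)) := by
    have h1 : 7 * ℓ + ρ ≤ 7 * ℓ * (1 + ρ) := by nlinarith
    have h3 : 2 * ((h : ℝ) + 1) * (7 * ℓ + ρ) ≤ 2 * ((h : ℝ) + 1) * (7 * ℓ * (1 + ρ)) :=
      mul_le_mul_of_nonneg_left h1 (by positivity)
    have h4 : (w : ℝ) - 1 ≤ 14 * ℓ * w := by nlinarith
    nlinarith
  calc (2 * ((h : ℝ) + 1) * (7 * ℓ + ρ) + (w - 1)) * S
      ≤ (14 * ℓ * (w + (h + 1) * (1 + ρ))) * S := mul_le_mul_of_nonneg_right hfac hS0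
    _ = (14 * ℓ) * ((w + (h + 1) * (1 + ρ)) * S) := by ring
    _ ≤ (n : ℝ) ^ (ε / 16) * ((w + (h + 1) * (1 + ρ)) * S) := by
        apply mul_le_mul_of_nonneg_right _ hX
        rw [hℓ]
        exact hlog

end Run7.h413.NR.Field
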