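import Pool.Agent.Run7.h413.DN.Sub
import Pool.Agent.Run7.h413.NR.Multi

set_option autoImplicit false

/-! # Deep networks: patterns of all nodes, and grouping of the items -/

namespace Run7.h413.DN

open Finset MvPolynomial
open Pool.Agent.N452.TF (Leaf)
open Pool.Agent.R599.NC (GD ungroup)

namespace Net

section patterns

variable {ι : Type} {D : ι → Type} {w q : ℕ} [DecidableEq ι] (C : Net ι D w q) (i : ι) {Y : Type}

open Classical in
/-- Few patterns of signs of the nodes which depend on the item. -/
theorem patterns [Fintype Y] (y : Y → D i) (d s M E : ℕ) (hq : 1 ≤ q)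
    (hd : C.DepthLE d) (hs : C.traffic i ≤ s)
    (hM : 16 * Fintype.card Y * s ^ 2 + 2 ≤ M)
    (hE : E = q ^ (w - 1) * (M * 2 ^ d) ^ (2 * (d + 2))) :
    ∃ S : Finset (C.Node → Y → Bool), S.card ≤ E ^ C.traffic i ∧
      ∀ z : (∀ i, D i), (fun a u => decide (C.Dep i a ∧
        decide (0 < C.val (Function.update z i (y u)) a) = true)) ∈ S := by
  have hM1 : 1 ≤ M * 2 ^ d := Nat.mul_pos (by omega) (by positivity)
  by_cases hne : Nonempty (∀ i, D i)
  · obtain ⟨z0⟩ := hne
    choose F hF1 hF2 using fun a => C.lf_family i hq y z0 a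
    have h1 : ∀ l : C.Node → Y → ℝ, ∃ S : Finset (C.Node → Y → Bool),
        S.card ≤ (M * 2 ^ d) ^ (2 * (d + 2) * C.traffic i) ∧
        ∀ θ v, C.Cons i l θ v → (fun a u => decide (C.Dep i a ∧
          decide (0 < v a u) = true)) ∈ S := by
      intro l
      obtain ⟨𝒬, hQ1, hQ2, hQ3⟩ := C.levels i l d s M hs hM (d + 1) le_rfl
      have h2 : ∀ Q : 𝒬, (Set.range (fun x : C.ix i → ℝ => fun p : C.deps i × Y =>
          SignType.sign (MvPolynomial.eval x (Q.1 p.1.1 p.2)))).ncard ≤
            (M * 2 ^ d) ^ (2 * C.traffic i) := by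
        intro Q
        refine (Pool.Agent.Helper448.Warren.ncard_sign_patterns_le
          (fun p : C.deps i × Y => Q.1 p.1.1 p.2) (2 ^ (d + 1))
          (fun p => hQ2 Q.1 Q.2 _ _)).trans ?_
        have h3 : 4 * Fintype.card (C.deps i × Y) * 2 ^ (d + 1) + 2 ≤ M * 2 ^ d := by
          rw [Fintype.card_prod, Fintype.card_coe]
          have h4 : (C.deps i).card ≤ s := by
            refine le_trans ?_ hs
            calc (C.deps i).card = ∑ _a ∈ C.deps i, 1 := by rw [card_eq_sum_ones]
              _ ≤ ∑ a ∈ C.deps i, C.rd i a :=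
                sum_le_sum fun a ha => rd_pos ((C.mem_deps i).1 ha)
              _ ≤ ∑ a, C.rd i a := sum_le_sum_of_subset (subset_univ _)
          have h5 : s ≤ s ^ 2 := by nlinarith [Nat.zero_le s]
          have h6 : 1 ≤ 2 ^ d := Nat.one_le_two_pow
          calc 4 * ((C.deps i).card * Fintype.card Y) * 2 ^ (d + 1) + 2
              ≤ 4 * (s * Fintype.card Y) * 2 ^ (d + 1) + 2 * 2 ^ d := by
                apply Nat.add_le_add
                · apply Nat.mul_le_mul_right
                  apply Nat.mul_le_mul_left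
                  exact Nat.mul_le_mul_right _ h4
                · omega
            _ = (8 * Fintype.card Y * s + 2) * 2 ^ d := by ring
            _ ≤ (16 * Fintype.card Y * s ^ 2 + 2) * 2 ^ d := by
                apply Nat.mul_le_mul_right
                apply Nat.add_le_add_right
                exact Nat.mul_le_mul (Nat.mul_le_mul_right _ (by norm_num)) h5
            _ ≤ M * 2 ^ d := Nat.mul_le_mul_right _ hM
        calc (4 * Fintype.card (C.deps i × Y) * 2 ^ (d + 1) + 2) ^ Fintype.card (C.ix i)
            ≤ (M * 2 ^ d) ^ Fintype.card (C.ix i) := Nat.pow_le_pow_left h3 _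
          _ ≤ _ := by
              apply Nat.pow_le_pow_right hM1
              rw [Fintype.card_coe]
              exact C.card_ix_le i
      obtain ⟨e, he⟩ : ∃ e : (C.deps i × Y → SignType) → C.Node → Y → Bool, e = fun σ a u =>
          decide (∃ h : a ∈ C.deps i, σ (⟨a, h⟩, u) = 1) := ⟨_, rfl⟩
      refine ⟨univ.biUnion (fun Q : 𝒬 => (Set.toFinite (Set.range (fun x : C.ix i → ℝ =>
        fun p : C.deps i × Y => SignType.sign (MvPolynomial.eval x
          (Q.1 p.1.1 p.2))))).toFinset.image e), ?_, ?_⟩
      · refine card_biUnion_le.trans ?_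
        calc ∑ Q : 𝒬, ((Set.toFinite (Set.range (fun x : C.ix i → ℝ =>
              fun p : C.deps i × Y => SignType.sign (MvPolynomial.eval x
                (Q.1 p.1.1 p.2))))).toFinset.image e).card
            ≤ ∑ _Q : 𝒬, (M * 2 ^ d) ^ (2 * C.traffic i) := by
              refine sum_le_sum fun Q _ => card_image_le.trans ?_
              rw [← Set.ncard_eq_toFinset_card]
              exact h2 Q
          _ = 𝒬.card * (M * 2 ^ d) ^ (2 * C.traffic i) := by
              rw [sum_const, card_univ, Fintype.card_coe, smul_eq_mul]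
          _ ≤ ((M * 2 ^ d) ^ (2 * C.traffic i)) ^ (d + 1) * (M * 2 ^ d) ^ (2 * C.traffic i) :=
              Nat.mul_le_mul_right _ hQ1
          _ = _ := by
              rw [← pow_succ, ← pow_mul]
              congr 1
              ring
      · intro θ v hv
        obtain ⟨Q, hQ, hQv⟩ := hQ3 θ v hv
        rw [mem_biUnion]
        refine ⟨⟨Q, hQ⟩, mem_univ _, ?_⟩
        rw [mem_image]
        refine ⟨fun p => SignType.sign (MvPolynomial.eval θ (Q p.1.1 p.2)), ?_, ?_⟩
        · rw [Set.Finite.mem_toFinset]
          exact ⟨θ, rfl⟩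
        · funext a u
          rw [he]
          apply decide_eq_decide.2
          rw [decide_eq_true_iff]
          constructor
          · rintro ⟨h, h'⟩
            have ha := (C.mem_deps i).1 h
            refine ⟨ha, ?_⟩
            rw [hQv a ha (Nat.lt_succ_of_le (hd a)) u]
            exact sign_eq_one_iff.1 h'
          · rintro ⟨ha, h'⟩
            refine ⟨(C.mem_deps i).2 ha, ?_⟩
            rw [hQv a ha (Nat.lt_succ_of_le (hd a)) u] at h'
            exact sign_eq_one_iff.2 h'
    choose S hS1 hS2 using h1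
    refine ⟨(Fintype.piFinset F).biUnion S, ?_, fun z => ?_⟩
    · refine card_biUnion_le.trans ?_
      have h2 : (Fintype.piFinset F).card ≤ (q ^ (w - 1)) ^ C.traffic i := by
        rw [Fintype.card_piFinset]
        calc ∏ a, (F a).card ≤ ∏ a, (q ^ (w - 1)) ^ C.rd i a :=
              prod_le_prod' fun a _ => hF1 a
          _ = _ := by
              rw [prod_pow_eq_pow_sum]
              rfl
      calc ∑ l ∈ Fintype.piFinset F, (S l).card
          ≤ ∑ _l ∈ Fintype.piFinset F, (M * 2 ^ d) ^ (2 * (d + 2) * C.traffic i) :=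
            sum_le_sum fun l _ => hS1 l
        _ = (Fintype.piFinset F).card * (M * 2 ^ d) ^ (2 * (d + 2) * C.traffic i) := by
            rw [sum_const, smul_eq_mul]
        _ ≤ (q ^ (w - 1)) ^ C.traffic i * (M * 2 ^ d) ^ (2 * (d + 2) * C.traffic i) :=
            Nat.mul_le_mul_right _ h2
        _ = E ^ C.traffic i := by
            rw [hE, mul_pow (q ^ (w - 1)), ← pow_mul (M * 2 ^ d)]
    · rw [mem_biUnion]
      refine ⟨C.lf i y z, ?_, ?_⟩
      · rw [Fintype.mem_piFinset]
        exact fun a => hF2 a z
      · exact hS2 (C.lf i y z) _ _ (C.cons i y z)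
  · exact ⟨∅, by simp, fun z => absurd ⟨z⟩ hne⟩

/-- Few subfunctions of the family of the outputs. -/
theorem multi {J : Type} [Fintype J] (o : J → C.Node) [Fintype Y] (y : Y → D i) (d s M E : ℕ)
    (hq : 1 ≤ q) (hd : C.DepthLE d) (hs : C.traffic i ≤ s)
    (hM : 16 * Fintype.card Y * s ^ 2 + 2 ≤ M)
    (hE : E = q ^ (w - 1) * (M * 2 ^ d) ^ (2 * (d + 2))) :
    ∃ S : Finset (Y → J → Bool), S.card ≤ 2 ^ Fintype.card J * E ^ C.traffic i ∧
      ∀ z : (∀ i, D i), (fun u j => decide (0 < C.val (Function.update z i (y u)) (o j))) ∈ S := by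
  classical
  obtain ⟨𝒮, h1, h2⟩ := C.patterns i y d s M E hq hd hs hM hE
  obtain ⟨S, h3, h4⟩ := Run7.h413.NR.outputs (C.Dep i) 𝒮
    (fun z u a => decide (0 < C.val (Function.update z i (y u)) a))
    (fun z => by convert h2 z) (fun z => ⟨fun a => decide (0 < C.val z a), fun u a ha => by
      rw [val_of_not_dep C i (y u) z (C.lev a + 1) a (Nat.lt_succ_self _) ha]⟩) o
  exact ⟨S, h3.trans (Nat.mul_le_mul_left _ h1), h4⟩

end patterns

section group

variable {ι κ : Type} {D : ι → Type} {w q : ℕ} (grp : ι → κ)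

/-- grouping for gates -/
def ggate {N : Type} : Gate ι D w q N → Gate κ (GD D grp) w q N
  | .leaf L => .leaf (Run7.h413.NR.gleaf grp L)
  | .lin S a c => .lin S a c
  | .mul a b => .mul a b
  | .max S => .max S
  | .sym S k => .sym S k

theorem ggate_inputs {N : Type} [DecidableEq N] (g : Gate ι D w q N) :
    (ggate grp g).inputs = g.inputs := by
  cases g <;> rfl

theorem ggate_eval {N : Type} (g : Gate ι D w q N) (x : ∀ b, GD D grp b) (v : N → ℝ) :
    (ggate grp g).eval x v = g.eval (ungroup grp x) v := by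
  cases g with
  | leaf L => exact Run7.h413.NR.gleaf_val grp L x
  | lin S a c => rfl
  | mul a b => rfl
  | max S => rfl
  | sym S k => rfl

theorem ggate_sees {N : Type} (g : Gate ι D w q N) {b : κ} (h : (ggate grp g).Sees b) :
    ∃ e, grp e = b ∧ g.Sees e := by
  cases g with
  | leaf L => exact Run7.h413.NR.gleaf_sees grp L h
  | lin S a c => exact h.elim
  | mul a b => exact h.elim
  | max S => exact h.elim
  | sym S k => exact h.elim

/-- grouping for networks -/
def gnet (C : Net ι D w q) : Net κ (GD D grp) w q where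
  Node := C.Node
  fin := C.fin
  dec := C.dec
  gate := fun a => ggate grp (C.gate a)
  lev := C.lev
  lt := fun a b hb => C.lt a b (by rw [← ggate_inputs grp]; exact hb)
  out := C.out

variable (C : Net ι D w q)

theorem gnet_val (x : ∀ b, GD D grp b) : ∀ (k : ℕ) (a : C.Node), C.lev a < k →
    (C.gnet grp).val x a = C.val (ungroup grp x) a
  | 0, a, h => absurd h (Nat.not_lt_zero _)
  | k + 1, a, h => by
      rw [val_eq, val_eq C]
      refine (ggate_eval grp (C.gate a) x (fun b : C.Node => (C.gnet grp).val x b)).trans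
        (Gate.eval_congr _ _ fun b hb => ?_)
      exact gnet_val x k b (by have := C.lt a b hb; omega)

theorem gnet_dep {b : κ} {a : (C.gnet grp).Node} (h : (C.gnet grp).Dep b a) :
    ∃ e, grp e = b ∧ C.Dep e a := by
  induction h with
  | @leaf a h =>
    obtain ⟨e, h1, h2⟩ := ggate_sees grp (C.gate a) h
    exact ⟨e, h1, .leaf h2⟩
  | @wire a c hb _ ih =>
    obtain ⟨e, h1, h2⟩ := ih
    have hb' : c ∈ (C.gate a).inputs := by
      rw [← ggate_inputs grp]
      exact hb
    exact ⟨e, h1, .wire hb' h2⟩

theorem gnet_rd [Fintype ι] [DecidableEq κ] (b : κ) (a : C.Node) :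
    (C.gnet grp).rd b a ≤ ∑ e ∈ univ.filter (fun e => grp e = b), C.rd e a := by
  classical
  unfold rd
  rw [sum_add_distrib]
  refine add_le_add ?_ ?_
  · split_ifs with h
    · obtain ⟨e, h1, h2⟩ := ggate_sees grp (C.gate a) h
      calc 1 = if (C.gate a).Sees e then 1 else 0 := (if_pos h2).symm
        _ ≤ _ := single_le_sum (f := fun e => if (C.gate a).Sees e then 1 else 0)
            (fun _ _ => Nat.zero_le _) (mem_filter.2 ⟨mem_univ _, h1⟩)
    · exact Nat.zero_le _
  · have h1 : ((C.gnet grp).gate a).inputs = (C.gate a).inputs := ggate_inputs grp _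
    rw [h1]
    have h2 : (C.gate a).inputs.filter (fun c => (C.gnet grp).Dep b c) ⊆
        (univ.filter (fun e => grp e = b)).biUnion
          (fun e => (C.gate a).inputs.filter (fun c => C.Dep e c)) := by
      intro c hc
      rw [mem_filter] at hc
      obtain ⟨e, h3, h4⟩ := C.gnet_dep grp hc.2
      rw [mem_biUnion]
      exact ⟨e, mem_filter.2 ⟨mem_univ _, h3⟩, mem_filter.2 ⟨hc.1, h4⟩⟩
    exact (card_le_card h2).trans card_biUnion_le

theorem gnet_traffic [Fintype ι] [DecidableEq κ] (b : κ) :
    (C.gnet grp).traffic b ≤ ∑ e ∈ univ.filter (fun e => grp e = b), C.traffic e := by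
  unfold traffic
  rw [sum_comm]
  exact sum_le_sum fun a _ => C.gnet_rd grp b a

theorem gnet_cost [Fintype ι] [DecidableEq κ] (I : Finset κ) :
    ∑ b ∈ I, (C.gnet grp).traffic b ≤ C.cost univ := by
  classical
  calc ∑ b ∈ I, (C.gnet grp).traffic b
      ≤ ∑ b ∈ I, ∑ e ∈ univ.filter (fun e => grp e = b), C.traffic e :=
        sum_le_sum fun b _ => C.gnet_traffic grp b
    _ = ∑ e ∈ univ.filter (fun e => grp e ∈ I), C.traffic e := by
        rw [← sum_biUnion]
        · apply sum_congr _ fun _ _ => rfl
          ext e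
          simp only [mem_biUnion, mem_filter, mem_univ, true_and]
          exact ⟨fun ⟨b, hb, he⟩ => he ▸ hb, fun h => ⟨_, h, rfl⟩⟩
        · intro b _ b' _ hbb
          rw [Function.onFun, disjoint_left]
          intro e he he'
          rw [mem_filter] at he he'
          exact hbb (he.2.symm.trans he'.2)
    _ ≤ C.cost univ := sum_le_sum_of_subset (subset_univ _)

end group

end Net

end Run7.h413.DN
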