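import Pool.Agent.Run7.h413.FN.Sub
import Pool.Agent.Run7.h413.NR.Multi

set_option autoImplicit false

/-! # Networks over a field: patterns of all nodes, and grouping of the items -/

namespace Run7.h413.FN

open Finset MvPolynomial
open Pool.Agent.N452.TF (Leaf)
open Pool.Agent.R599.NC (GD ungroup)

namespace Net

section patterns

variable {K : Type} [Field K] {ι : Type} {D : ι → Type} {w q : ℕ} [DecidableEq ι]
  (C : Net K ι D w q) (i : ι) {Y : Type}

open Classical in
/-- Few patterns of zeros of the nodes which depend on the item. -/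
theorem patterns [Fintype Y] (y : Y → D i) (h g s M E : ℕ) (hq : 1 ≤ q)
    (hg : 1 ≤ g) (hT : C.TestDepthLE h) (hG : C.DegreeLE g) (hs : C.traffic i ≤ s)
    (hM : Fintype.card Y * s + 1 ≤ M)
    (hE : E = q ^ (w - 1) * (M * g) ^ (2 * (h + 1))) :
    ∃ S : Finset (C.Node → Y → Bool), S.card ≤ E ^ C.traffic i ∧
      ∀ z : (∀ i, D i), (fun a u => decide (C.Dep i a ∧
        decide (C.val (Function.update z i (y u)) a ≠ 0) = true)) ∈ S := by
  obtain ⟨t, ht0, ht, ht2⟩ := hT
  obtain ⟨δ, h1, h2, h3⟩ := hG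
  by_cases hne : Nonempty (∀ i, D i)
  · obtain ⟨z0⟩ := hne
    choose F hF1 hF2 using fun a => C.lf_family i hq y z0 a
    choose S hS1 hS2 using fun l : C.Node → Y → K =>
      C.levels i t ht ht2 δ g hg h1 h2 h3 s M hs hM l (h + 1)
    refine ⟨(Fintype.piFinset F).biUnion S, ?_, fun z => ?_⟩
    · refine card_biUnion_le.trans ?_
      have h4 : (Fintype.piFinset F).card ≤ (q ^ (w - 1)) ^ C.traffic i := by
        rw [Fintype.card_piFinset]
        calc ∏ a, (F a).card ≤ ∏ a, (q ^ (w - 1)) ^ C.rd i a :=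
              prod_le_prod' fun a _ => hF1 a
          _ = _ := by
              rw [prod_pow_eq_pow_sum]
              rfl
      calc ∑ l ∈ Fintype.piFinset F, (S l).card
          ≤ ∑ _l ∈ Fintype.piFinset F, ((M * g) ^ (2 * C.traffic i)) ^ (h + 1) :=
            sum_le_sum fun l _ => hS1 l
        _ = (Fintype.piFinset F).card * ((M * g) ^ (2 * C.traffic i)) ^ (h + 1) := by
            rw [sum_const, smul_eq_mul]
        _ ≤ (q ^ (w - 1)) ^ C.traffic i * ((M * g) ^ (2 * C.traffic i)) ^ (h + 1) :=
            Nat.mul_le_mul_right _ h4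
        _ = E ^ C.traffic i := by
            rw [hE, mul_pow (q ^ (w - 1)), ← pow_mul (M * g), ← pow_mul (M * g)]
            congr 2
            ring
    · rw [mem_biUnion]
      refine ⟨C.lf i y z, ?_, ?_⟩
      · rw [Fintype.mem_piFinset]
        exact fun a => hF2 a z
      · refine (congrArg (· ∈ S (C.lf i y z)) ?_).mp (hS2 (C.lf i y z) _ _ (C.cons i y z))
        funext a u
        unfold cut
        apply decide_eq_decide.2
        rw [decide_eq_true_iff]
        exact ⟨fun h' => ⟨h'.1, h'.2.2⟩, fun h' => ⟨h'.1, Nat.lt_succ_of_le (ht0 _), h'.2⟩⟩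
  · exact ⟨∅, by simp, fun z => absurd ⟨z⟩ hne⟩

open Classical in
/-- Few subfunctions of the family of the outputs. -/
theorem multi {J : Type} [Fintype J] (o : J → C.Node) [Fintype Y] (y : Y → D i) (h g s M E : ℕ)
    (hq : 1 ≤ q) (hg : 1 ≤ g) (hT : C.TestDepthLE h) (hG : C.DegreeLE g) (hs : C.traffic i ≤ s)
    (hM : Fintype.card Y * s + 1 ≤ M)
    (hE : E = q ^ (w - 1) * (M * g) ^ (2 * (h + 1))) :
    ∃ S : Finset (Y → J → Bool), S.card ≤ 2 ^ Fintype.card J * E ^ C.traffic i ∧
      ∀ z : (∀ i, D i), (fun u j => decide (C.val (Function.update z i (y u)) (o j) ≠ 0)) ∈ S := by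
  obtain ⟨𝒮, h1, h2⟩ := C.patterns i y h g s M E hq hg hT hG hs hM hE
  obtain ⟨S, h3, h4⟩ := Run7.h413.NR.outputs (C.Dep i) 𝒮
    (fun z u a => decide (C.val (Function.update z i (y u)) a ≠ 0))
    (fun z => by convert h2 z) (fun z => ⟨fun a => decide (C.val z a ≠ 0), fun u a ha => by
      rw [val_of_not_dep C i (y u) z (C.lev a + 1) a (Nat.lt_succ_self _) ha]⟩) o
  exact ⟨S, h3.trans (Nat.mul_le_mul_left _ h1), h4⟩

end patterns

section group

variable {K : Type} [Field K] {ι κ : Type} {D : ι → Type} {w q : ℕ} (grp : ι → κ)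

/-- grouping for gates -/
def ggate {N : Type} : Gate K ι D w q N → Gate K κ (GD D grp) w q N
  | .leaf L => .leaf (Run7.h413.NR.gleaf grp L)
  | .lin S a c => .lin S a c
  | .mul a b => .mul a b
  | .sym S k => .sym S k

theorem ggate_inputs {N : Type} [DecidableEq N] (g : Gate K ι D w q N) :
    (ggate grp g).inputs = g.inputs := by
  cases g <;> rfl

theorem ggate_eval {N : Type} (g : Gate K ι D w q N) (x : ∀ b, GD D grp b) (v : N → K) :
    (ggate grp g).eval x v = g.eval (ungroup grp x) v := by
  cases g with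
  | leaf L => exact Run7.h413.NR.gleaf_val grp L x
  | lin S a c => rfl
  | mul a b => rfl
  | sym S k => rfl

theorem ggate_sees {N : Type} (g : Gate K ι D w q N) {b : κ} (h : (ggate grp g).Sees b) :
    ∃ e, grp e = b ∧ g.Sees e := by
  cases g with
  | leaf L => exact Run7.h413.NR.gleaf_sees grp L h
  | lin S a c => exact h.elim
  | mul a b => exact h.elim
  | sym S k => exact h.elim

/-- grouping for networks -/
def gnet (C : Net K ι D w q) : Net K κ (GD D grp) w q where
  Node := C.Node
  fin := C.fin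
  dec := C.dec
  gate := fun a => ggate grp (C.gate a)
  lev := C.lev
  lt := fun a b hb => C.lt a b (by rw [← ggate_inputs grp]; exact hb)
  out := C.out

variable (C : Net K ι D w q)

theorem gnet_val (x : ∀ b, GD D grp b) : ∀ (k : ℕ) (a : C.Node), C.lev a < k →
    (C.gnet grp).val x a = C.val (ungroup grp x) a
  | 0, a, h => absurd h (Nat.not_lt_zero _)
  | k + 1, a, h => by
      rw [val_eq, val_eq C]
      refine (ggate_eval grp (C.gate a) x (fun b : C.Node => (C.gnet grp).val x b)).trans
        (Gate.eval_congr _ _ fun b hb => ?_)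
      exact gnet_val x k b (by have := C.lt a b hb; omega)

theorem gnet_tests {h : ℕ} (hT : C.TestDepthLE h) : (C.gnet grp).TestDepthLE h := by
  obtain ⟨t, h1, h2, h3⟩ := hT
  refine ⟨t, h1, fun a b hb => h2 a b (by rw [← ggate_inputs grp]; exact hb), fun a S k hg => ?_⟩
  have hg' : ggate grp (C.gate a) = .sym S k := hg
  cases hc : C.gate a with
  | leaf L => rw [hc] at hg'; cases hg'
  | lin S' a' c => rw [hc] at hg'; cases hg'
  | mul a' b => rw [hc] at hg'; cases hg'
  | sym S' k' =>
    rw [hc] at hg'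
    have e : (Gate.sym S' k' : Gate K κ (GD D grp) w q C.Node) = .sym S k := hg'
    injection e with e1 e2
    subst e1 e2
    exact h3 a S' k' hc

theorem gnet_degree {g : ℕ} (hG : C.DegreeLE g) : (C.gnet grp).DegreeLE g := by
  obtain ⟨δ, h1, h2, h3⟩ := hG
  refine ⟨δ, h1, fun a S c e hg => ?_, fun a b c hg => ?_⟩
  · have hg' : ggate grp (C.gate a) = .lin S c e := hg
    cases hc : C.gate a with
    | leaf L => rw [hc] at hg'; cases hg'
    | mul a' b => rw [hc] at hg'; cases hg'
    | sym S' k' => rw [hc] at hg'; cases hg'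
    | lin S' c' e' =>
      rw [hc] at hg'
      have e1 : (Gate.lin S' c' e' : Gate K κ (GD D grp) w q C.Node) = .lin S c e := hg'
      injection e1 with e2 e3 e4
      subst e2 e3 e4
      exact h2 a S' c' e' hc
  · have hg' : ggate grp (C.gate a) = .mul b c := hg
    cases hc : C.gate a with
    | leaf L => rw [hc] at hg'; cases hg'
    | lin S' c' e' => rw [hc] at hg'; cases hg'
    | sym S' k' => rw [hc] at hg'; cases hg'
    | mul b' c' =>
      rw [hc] at hg'
      have e1 : (Gate.mul b' c' : Gate K κ (GD D grp) w q C.Node) = .mul b c := hg'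
      injection e1 with e2 e3
      subst e2 e3
      exact h3 a b' c' hc

theorem gnet_dep {b : κ} {a : (C.gnet grp).Node} (h : (C.gnet grp).Dep b a) :
    ∃ e, grp e = b ∧ C.Dep e a := by
  induction h with
  | @leaf a h =>
    obtain ⟨e, h1, h2⟩ := ggate_sees grp (C.gate a) h
    exact ⟨e, h1, .leaf h2⟩
  | @wire a c hb _ ih =>
    obtain ⟨e, h1, h2⟩ := ih
    have hb' : c ∈ (C.gate a).inputs := by
      rw [← ggate_inputs grp]
      exact hb
    exact ⟨e, h1, .wire hb' h2⟩

theorem gnet_rd [Fintype ι] [DecidableEq κ] (b : κ) (a : C.Node) :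
    (C.gnet grp).rd b a ≤ ∑ e ∈ univ.filter (fun e => grp e = b), C.rd e a := by
  classical
  unfold rd
  rw [sum_add_distrib]
  refine add_le_add ?_ ?_
  · split_ifs with h
    · obtain ⟨e, h1, h2⟩ := ggate_sees grp (C.gate a) h
      calc 1 = if (C.gate a).Sees e then 1 else 0 := (if_pos h2).symm
        _ ≤ _ := single_le_sum (f := fun e => if (C.gate a).Sees e then 1 else 0)
            (fun _ _ => Nat.zero_le _) (mem_filter.2 ⟨mem_univ _, h1⟩)
    · exact Nat.zero_le _
  · have h1 : ((C.gnet grp).gate a).inputs = (C.gate a).inputs := ggate_inputs grp _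
    rw [h1]
    have h2 : (C.gate a).inputs.filter (fun c => (C.gnet grp).Dep b c) ⊆
        (univ.filter (fun e => grp e = b)).biUnion
          (fun e => (C.gate a).inputs.filter (fun c => C.Dep e c)) := by
      intro c hc
      rw [mem_filter] at hc
      obtain ⟨e, h3, h4⟩ := C.gnet_dep grp hc.2
      rw [mem_biUnion]
      exact ⟨e, mem_filter.2 ⟨mem_univ _, h3⟩, mem_filter.2 ⟨hc.1, h4⟩⟩
    exact (card_le_card h2).trans card_biUnion_le

theorem gnet_traffic [Fintype ι] [DecidableEq κ] (b : κ) :
    (C.gnet grp).traffic b ≤ ∑ e ∈ univ.filter (fun e => grp e = b), C.traffic e := by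
  unfold traffic
  rw [sum_comm]
  exact sum_le_sum fun a _ => C.gnet_rd grp b a

theorem gnet_cost [Fintype ι] [DecidableEq κ] (I : Finset κ) :
    ∑ b ∈ I, (C.gnet grp).traffic b ≤ C.cost univ := by
  classical
  calc ∑ b ∈ I, (C.gnet grp).traffic b
      ≤ ∑ b ∈ I, ∑ e ∈ univ.filter (fun e => grp e = b), C.traffic e :=
        sum_le_sum fun b _ => C.gnet_traffic grp b
    _ = ∑ e ∈ univ.filter (fun e => grp e ∈ I), C.traffic e := by
        rw [← sum_biUnion]
        · apply sum_congr _ fun _ _ => rfl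
          ext e
          simp only [mem_biUnion, mem_filter, mem_univ, true_and]
          exact ⟨fun ⟨b, hb, he⟩ => he ▸ hb, fun h => ⟨_, h, rfl⟩⟩
        · intro b _ b' _ hbb
          rw [Function.onFun, disjoint_left]
          intro e he he'
          rw [mem_filter] at he he'
          exact hbb (he.2.symm.trans he'.2)
    _ ≤ C.cost univ := sum_le_sum_of_subset (subset_univ _)

end group

end Net

end Run7.h413.FN
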